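import Mathlib
import Pool.Agent.X78.Contact

namespace Pool.Agent.Results.MP_3155f9_ag.AllEquivalent

open MvPowerSeries Pool.Agent.X78.Contact

noncomputable section

/-- The pair `f_{a,b} = (x³ + y⁵ + a y⁶ + b y⁸, x² y + x y²)` in `F[[x,y]]`, with `x = X 0` and
`y = X 1`. -/
def pair {F : Type*} [Field F] (a b : F) : Fin 2 → MvPowerSeries (Fin 2) F :=
  ![X 0 ^ 3 + X 1 ^ 5 + C a * X 1 ^ 6 + C b * X 1 ^ 8, X 0 ^ 2 * X 1 + X 0 * X 1 ^ 2]

/-- `P` holds for general points of `F⁴`: it holds on some nonempty Zariski-open subset, that is,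
there is a set `S` of polynomials, not all vanishing identically as functions on `F⁴`, such that
`P` holds wherever some member of `S` does not vanish. -/
def General {F : Type*} [Field F] (P : (Fin 4 → F) → Prop) : Prop :=
  ∃ S : Set (MvPolynomial (Fin 4) F), (∃ v, ∃ q ∈ S, MvPolynomial.eval v q ≠ 0) ∧
    ∀ v, (∃ q ∈ S, MvPolynomial.eval v q ≠ 0) → P v

theorem all_equiv {F : Type*} [Field F] [CharP F 2] (a b c d : F) :
    ContactEquiv (pair a b) (pair c d) := by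
  set x : MvPowerSeries (Fin 2) F := X 0 with hx
  set y : MvPowerSeries (Fin 2) F := X 1 with hy
  set t : MvPowerSeries (Fin 2) F := C (a + c) with ht
  have h2 : (2 : MvPowerSeries (Fin 2) F) = 0 := by
    have h : (C (2 : F) : MvPowerSeries (Fin 2) F) = 0 := by
      rw [CharTwo.two_eq_zero (R := F), map_zero]
    rwa [map_ofNat] at h
  have hcx : constantCoeff x = 0 := by simp [hx]
  have hcy : constantCoeff y = 0 := by simp [hy]
  have hu : constantCoeff (1 + t * y) ≠ 0 := by simp [hcy]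
  have hw := MvPowerSeries.mul_inv_cancel (1 + t * y) hu
  set w := (1 + t * y)⁻¹ with hwdef
  have hCt : ∀ φ : MvPowerSeries (Fin 2) F →ₐ[F] MvPowerSeries (Fin 2) F, φ t = t := by
    intro φ
    have := φ.commutes (a + c)
    simpa [ht, MvPowerSeries.algebraMap_apply] using this
  have hCw : ∀ φ : MvPowerSeries (Fin 2) F →ₐ[F] MvPowerSeries (Fin 2) F, φ y = y → φ w = w := by
    intro φ hφ
    have h1 : (1 + t * y) * φ w = 1 := by
      have := congrArg φ hw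
      rwa [map_mul, map_add, map_mul, hCt, hφ, map_one] at this
    calc φ w = ((1 + t * y) * w) * φ w := by rw [hw, one_mul]
      _ = w * ((1 + t * y) * φ w) := by ring
      _ = w := by rw [h1, mul_one]
  obtain ⟨φ, hφ0, hφ1⟩ := exists_algEquiv (F := F) (A := x * (1 + t * y) + t * y ^ 4) (B := y)
    (A' := (x - t * y ^ 4) * w) (B' := y) (by simp [hcx, hcy]) hcy (by simp [hcx, hcy]) hcy
    (by
      intro φ h0 h1
      refine ⟨?_, h1⟩
      rw [map_mul, map_sub, map_mul, map_pow, hCt, ← hy] at *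
      rw [← hx] at h0
      rw [hCw φ h1, h0, h1]
      linear_combination x * hw)
    (by
      intro φ h0 h1
      refine ⟨?_, h1⟩
      rw [← hx] at h0
      rw [← hy] at h1
      rw [map_add, map_mul, map_mul, map_add, map_one, map_mul, map_pow, hCt, h1, h0]
      linear_combination (x - t * y ^ 4) * hw)
  set ca : MvPowerSeries (Fin 2) F := C a with hca
  set cb : MvPowerSeries (Fin 2) F := C b with hcb
  set cc : MvPowerSeries (Fin 2) F := C c with hcc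
  set cd : MvPowerSeries (Fin 2) F := C d with hcd
  have htt : t = ca + cc := by rw [ht, map_add]
  have hCc : ∀ e : F, φ (C e) = C e := by
    intro e
    have := φ.commutes e
    simpa [MvPowerSeries.algebraMap_apply] using this
  set G1 : MvPowerSeries (Fin 2) F := x ^ 3 + y ^ 5 + cc * y ^ 6 + cd * y ^ 8 with hG1
  set G2 : MvPowerSeries (Fin 2) F := x ^ 2 * y + x * y ^ 2 with hG2
  have hv : constantCoeff (1 + y ^ 2 * (1 + cc * y + cd * y ^ 3)) ≠ 0 := by simp [hcy]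
  have hv' : constantCoeff (1 + cc * y + cd * y ^ 3) ≠ 0 := by simp [hcy]
  have K2 : MI G1 G2 (x * y ^ 4) := by
    refine MI.cancel hv ⟨x * y, x ^ 2 + x * y + y ^ 2, by simp [hcy], by simp [hcx, hcy], ?_⟩
    rw [hG1, hG2]
    linear_combination (- x^2*y^3 - x^3*y^2 - x^4*y) * h2
  have K3 : MI G1 G2 (y ^ 7) := by
    refine MI.cancel hv' ?_
    have e : (1 + cc * y + cd * y ^ 3) * y ^ 7 = x * y ^ 4 + (y ^ 2 * G1 + ((x + y) * y) * G2) := by
      rw [hG1, hG2]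
      linear_combination (- x*y^4 - x^2*y^3 - x^3*y^2) * h2
    rw [e]
    exact K2.add ⟨y ^ 2, (x + y) * y, by simp [hcy], by simp [hcy], rfl⟩
  have e1 : φ (pair a b 0) = 1 * pair c d 0 + 0 * pair c d 1 +
      (((t * y) * G1 + (t ^ 2 * (x * y + y ^ 2) + t ^ 3 * y * (x * y + y ^ 2)) * G2) +
      ((t ^ 2 + t ^ 3 * y + t * (1 + t ^ 2 * y ^ 2) * x + t ^ 2 * (1 + t * y) * y ^ 4) *
        (x * y ^ 4) +
      (t * (cc + cd * y ^ 2) + t ^ 3 * y ^ 5 + (cb + cd) * y) * y ^ 7)) := by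
    simp only [pair, Matrix.cons_val_zero, Matrix.cons_val_one, map_add, map_mul, map_pow, hCc]
    rw [hφ0, hφ1, ← hca, ← hcb, ← hcc, ← hcd, ← hx, ← hy, hG1, hG2, htt]
    linear_combination (- 2*ca*cc*x*y^4 + 2*ca*cc*x*y^8 - 2*ca*cc*x^2*y^3 + 6*ca*cc*x^2*y^5 + 2*ca*cc*x^3*y^2 -
      ca*cc*y^7 - 3*ca*cc^2*x*y^5 + 3*ca*cc^2*x*y^9 - 3*ca*cc^2*x^2*y^4 + 3*ca*cc^2*x^2*y^6 -
      ca*cd*y^9 + ca*x^2*y^4 + ca*x^3*y - 3*ca^2*cc*x*y^5 + 3*ca^2*cc*x*y^9 - 3*ca^2*cc*x^2*y^4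
      + 3*ca^2*cc*x^2*y^6 - ca^2*x*y^4 + ca^2*x*y^8 - ca^2*x^2*y^3 + 3*ca^2*x^2*y^5 +
      ca^2*x^3*y^2 - ca^3*x*y^5 + ca^3*x*y^9 - ca^3*x^2*y^4 + ca^3*x^2*y^6 - cc*cd*y^9 +
      cc*x^2*y^4 + cc*x^3*y - cc*y^6 - cc^2*x*y^4 + cc^2*x*y^8 - cc^2*x^2*y^3 + 3*cc^2*x^2*y^5 +
      cc^2*x^3*y^2 - cc^2*y^7 - cc^3*x*y^5 + cc^3*x*y^9 - cc^3*x^2*y^4 + cc^3*x^2*y^6 - cd*y^8) * h2
  have e2 : φ (pair a b 1) = 0 * pair c d 0 + 1 * pair c d 1 +
      (((t * y) * G1 + (t * (x + y) + t ^ 2 * y ^ 2) * G2) +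
      (t ^ 2 * (x * y ^ 4) + (t ^ 2 * y ^ 2 + t * (cc + cd * y ^ 2)) * y ^ 7)) := by
    simp only [pair, Matrix.cons_val_zero, Matrix.cons_val_one, map_add, map_mul, map_pow]
    rw [hφ0, hφ1, ← hcc, ← hcd, ← hx, ← hy, hG1, hG2, htt]
    linear_combination (- 2*ca*cc*x*y^4 + 2*ca*cc*x*y^6 - ca*cc*y^7 - ca*cd*y^9 + ca*x*y^5 - ca*x^3*y - ca^2*x*y^4
      + ca^2*x*y^6 - cc*cd*y^9 + cc*x*y^5 - cc*x^3*y - cc^2*x*y^4 + cc^2*x*y^6 - cc^2*y^7) * h2
  refine contact_of_MI φ e1 e2 ?_ ?_ (by simp)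
  · exact MI.add ⟨_, _, by simp [hcy], by simp [hcy], rfl⟩ ((K2.mul _).add (K3.mul _))
  · exact MI.add ⟨_, _, by simp [hcy], by simp [hcx, hcy], rfl⟩ ((K2.mul _).add (K3.mul _))

/-- **Result.** Over every algebraically closed field of characteristic `2`, all pairs
`f_{a,b}` are contact equivalent to each other. -/
theorem result {F : Type*} [Field F] [IsAlgClosed F] [CharP F 2] :
    (∀ a b c d : F, ContactEquiv (pair a b) (pair c d)) ∧
    (∀ q : MvPolynomial (Fin 4) F,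
      (∀ v : Fin 4 → F, ContactEquiv (pair (v 0) (v 1)) (pair (v 2) (v 3)) →
        MvPolynomial.eval v q = 0) → q = 0) ∧
    ¬ General (fun v : Fin 4 → F => ¬ ContactEquiv (pair (v 0) (v 1)) (pair (v 2) (v 3))) := by
  refine ⟨all_equiv, ?_, ?_⟩
  · intro q hq
    have : Infinite F := IsAlgClosed.instInfinite
    exact MvPolynomial.funext fun v => by rw [hq v (all_equiv _ _ _ _), map_zero]
  · rintro ⟨S, ⟨v, hv⟩, h⟩
    exact h v hv (all_equiv _ _ _ _)

end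

end Pool.Agent.Results.MP_3155f9_ag.AllEquivalent
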